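import Pool.Agent.NTW.StmtsB

/-!
# NTW squad, row HCM: comparison of the components in the hole at two points
-/

set_option autoImplicit false

open Matrix Filter Topology

namespace Pool.Agent.NTW.H92

open Pool.Agent.PFS Pool.Agent.PFJ Pool.Agent.NTS

/-- splitting of the point of the flat at two indices -/
theorem xt_split {n K : ℕ} (v : Fin K → V n) (t : Fin K → ℝ) (k r : Fin K) (hr : r ≠ k) :
    xt v t = Real.exp (t k) • v k + (Real.exp (t r) • v r +
      ∑ m ∈ (Finset.univ.erase k).erase r, Real.exp (t m) • v m) := by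
  unfold xt
  rw [Finset.add_sum_erase (Finset.univ.erase k) (fun m => Real.exp (t m) • v m)
    (Finset.mem_erase.2 ⟨hr, Finset.mem_univ r⟩),
    Finset.add_sum_erase Finset.univ (fun m => Real.exp (t m) • v m) (Finset.mem_univ k)]

/-- HCM -/
theorem hcm (dcp : DcpStmt) : HcmStmt := by
  classical
  intro n C Γ K c τ hD v v' M k i0 hv hv' hM hole t t' x x' hN hN'
  obtain ⟨w1, w2, -, w4, -, -, -⟩ := dcp n C Γ K c τ hD v' hv'
  have hP : PCone C := hD.toPCone
  have hcl : ∀ m, v m ∈ closure C := fun m => hv.pes.1.cl m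
  have hM0 : 0 ≤ M := by linarith
  have hrk : τ k ≠ k := hole.prk
  have hS : ∀ s : Fin K → ℝ, ∑ m ∈ (Finset.univ.erase k).erase (τ k), Real.exp (s m) • v m
      ∈ closure C := fun s =>
    hP.cl_sum fun m _ => hP.cl_smul (hcl m) (Real.exp_pos _).le
  -- the index of the class of `v m`
  have hj : ∀ m, ∃ j, m ≠ k → m ≠ τ k → j ≠ i0 ∧ j ≠ τ i0 ∧ v m ∈ Lf C τ v' j := by
    intro m
    by_cases h : m ≠ k ∧ m ≠ τ k
    · obtain ⟨j, h1⟩ := hole.oth m h.1 h.2
      exact ⟨j, fun _ _ => h1⟩
    · exact ⟨i0, fun h1 h2 => absurd ⟨h1, h2⟩ h⟩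
  choose jj hjj using hj
  -- the general comparison
  have key : ∀ β : ℝ, (∑ i, x' i) + β • v (τ k) - (Real.exp (t k) • v k +
      Real.exp (t (τ k)) • v (τ k)) ∈ closure C →
      M • ((x' i0 + x' (τ i0)) + β • v (τ k)) - (x i0 + x (τ i0)) ∈ closure C := by
    intro β hβ
    obtain ⟨T, hT⟩ : ∃ T : Fin K → V n, ∀ l, T l =
      ∑ m ∈ (Finset.univ.erase k).erase (τ k), if jj m = l then Real.exp (t m) • v m else 0 :=
      ⟨_, fun _ => rfl⟩
    have hTmem : ∀ l, T l ∈ Lf C τ v' l := by
      intro l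
      rw [hT]
      refine Submodule.sum_mem _ fun m hm => ?_
      split_ifs with h
      · rw [← h]
        exact Submodule.smul_mem _ _
          (hjj m (Finset.mem_erase.1 (Finset.mem_erase.1 hm).2).1 (Finset.mem_erase.1 hm).1).2.2
      · exact Submodule.zero_mem _
    have hT0 : T i0 = 0 := by
      rw [hT]
      refine Finset.sum_eq_zero fun m hm => ?_
      rw [if_neg (hjj m (Finset.mem_erase.1 (Finset.mem_erase.1 hm).2).1
        (Finset.mem_erase.1 hm).1).1]
    have hT1 : T (τ i0) = 0 := by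
      rw [hT]
      refine Finset.sum_eq_zero fun m hm => ?_
      rw [if_neg (hjj m (Finset.mem_erase.1 (Finset.mem_erase.1 hm).2).1
        (Finset.mem_erase.1 hm).1).2.1]
    have hTs : ∑ l, T l = ∑ m ∈ (Finset.univ.erase k).erase (τ k), Real.exp (t m) • v m := by
      simp_rw [hT]
      rw [Finset.sum_comm]
      refine Finset.sum_congr rfl fun m _ => ?_
      rw [Finset.sum_ite_eq Finset.univ (jj m), if_pos (Finset.mem_univ _)]
    obtain ⟨g, hg⟩ : ∃ g : Fin K → V n, ∀ l, g l =
      M • (x' l + (if l = i0 then β • v (τ k) else 0) + T l) - x l := ⟨_, fun _ => rfl⟩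
    have hg1 : ∀ l, g l ∈ Lf C τ v' l := by
      intro l
      rw [hg]
      refine Submodule.sub_mem _ (Submodule.smul_mem _ _ (Submodule.add_mem _
        (Submodule.add_mem _ (hN'.mem l) ?_) (hTmem l))) (hN.mem l)
      split_ifs with h
      · rw [h]; exact Submodule.smul_mem _ _ hole.mem
      · exact Submodule.zero_mem _
    have hg2 : ∑ l, g l ∈ closure C := by
      have e1 : ∑ l, g l = M • (∑ l, x' l + β • v (τ k) + ∑ l, T l) - ∑ l, x l := by
        simp_rw [hg]
        rw [Finset.sum_sub_distrib, ← Finset.smul_sum, Finset.sum_add_distrib,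
          Finset.sum_add_distrib, Finset.sum_ite_eq' Finset.univ i0, if_pos (Finset.mem_univ _)]
      have e2 : ∑ l, g l = (M • xt v t - ∑ l, x l) + M • ((∑ i, x' i) + β • v (τ k) -
          (Real.exp (t k) • v k + Real.exp (t (τ k)) • v (τ k))) := by
        rw [e1, hTs, xt_split v t k (τ k) hrk]
        module
      rw [e2]
      exact hP.cl_add hN.up (hP.cl_smul hβ hM0)
    have hg3 := w4 g hg1 hg2 i0
    have e3 : g i0 + g (τ i0) =
        M • ((x' i0 + x' (τ i0)) + β • v (τ k)) - (x i0 + x (τ i0)) := by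
      rw [hg, hg, if_pos rfl, if_neg hole.pr, hT0, hT1]
      module
    rwa [e3] at hg3
  have hlo' : (∑ i, x' i) - (Real.exp (t' k) • v k + (Real.exp (t' (τ k)) • v (τ k) +
      ∑ m ∈ (Finset.univ.erase k).erase (τ k), Real.exp (t' m) • v m)) ∈ closure C := by
    rw [← xt_split v t' k (τ k) hrk]
    exact hN'.lo
  refine ⟨?_, ?_, ?_⟩
  · -- (1)
    obtain ⟨g, hg⟩ : ∃ g : Fin K → V n, ∀ l, g l =
      x l - (if l = i0 then Real.exp (t (τ k)) • v (τ k) else 0) := ⟨_, fun _ => rfl⟩
    have hg1 : ∀ l, g l ∈ Lf C τ v' l := by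
      intro l
      rw [hg]
      refine Submodule.sub_mem _ (hN.mem l) ?_
      split_ifs with h
      · rw [h]; exact Submodule.smul_mem _ _ hole.mem
      · exact Submodule.zero_mem _
    have hg2 : ∑ l, g l ∈ closure C := by
      have e1 : ∑ l, g l = ∑ l, x l - Real.exp (t (τ k)) • v (τ k) := by
        simp_rw [hg]
        rw [Finset.sum_sub_distrib, Finset.sum_ite_eq' Finset.univ i0,
          if_pos (Finset.mem_univ _)]
      have e2 : ∑ l, g l = (∑ l, x l - xt v t) + (Real.exp (t k) • v k +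
          ∑ m ∈ (Finset.univ.erase k).erase (τ k), Real.exp (t m) • v m) := by
        rw [e1, xt_split v t k (τ k) hrk]
        module
      rw [e2]
      exact hP.cl_add hN.lo (hP.cl_add (hP.cl_smul (hcl k) (Real.exp_pos _).le) (hS t))
    have hg3 := w4 g hg1 hg2 i0
    have e3 : g i0 + g (τ i0) = (x i0 + x (τ i0)) - Real.exp (t (τ k)) • v (τ k) := by
      rw [hg, hg, if_pos rfl, if_neg hole.pr]
      module
    rwa [e3] at hg3
  · -- (2)
    intro h1
    refine key _ ?_
    have h2 : 0 ≤ Real.exp (t' k) - Real.exp (t k) := by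
      have := Real.exp_le_exp.2 h1
      linarith
    have e1 : (∑ i, x' i) + Real.exp (t (τ k)) • v (τ k) - (Real.exp (t k) • v k +
        Real.exp (t (τ k)) • v (τ k)) =
        ((∑ i, x' i) - (Real.exp (t' k) • v k + (Real.exp (t' (τ k)) • v (τ k) +
          ∑ m ∈ (Finset.univ.erase k).erase (τ k), Real.exp (t' m) • v m))) +
        ((Real.exp (t' k) - Real.exp (t k)) • v k + (Real.exp (t' (τ k)) • v (τ k) +
          ∑ m ∈ (Finset.univ.erase k).erase (τ k), Real.exp (t' m) • v m)) := by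
      module
    rw [e1]
    exact hP.cl_add hlo' (hP.cl_add (hP.cl_smul (hcl k) h2)
      (hP.cl_add (hP.cl_smul (hcl (τ k)) (Real.exp_pos _).le) (hS t')))
  · -- (3)
    intro h1 h1'
    have h2 : 0 ≤ Real.exp (t' k) - Real.exp (t k) := by
      have := Real.exp_le_exp.2 h1
      linarith
    have h3 : 0 ≤ Real.exp (t' (τ k)) - Real.exp (t (τ k)) := by
      have := Real.exp_le_exp.2 h1'
      linarith
    have h4 := key 0 ?_
    · rwa [zero_smul, add_zero] at h4
    have e1 : (∑ i, x' i) + (0 : ℝ) • v (τ k) - (Real.exp (t k) • v k +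
        Real.exp (t (τ k)) • v (τ k)) =
        ((∑ i, x' i) - (Real.exp (t' k) • v k + (Real.exp (t' (τ k)) • v (τ k) +
          ∑ m ∈ (Finset.univ.erase k).erase (τ k), Real.exp (t' m) • v m))) +
        ((Real.exp (t' k) - Real.exp (t k)) • v k +
          ((Real.exp (t' (τ k)) - Real.exp (t (τ k))) • v (τ k) +
          ∑ m ∈ (Finset.univ.erase k).erase (τ k), Real.exp (t' m) • v m)) := by
      module
    rw [e1]
    exact hP.cl_add hlo' (hP.cl_add (hP.cl_smul (hcl k) h2)
      (hP.cl_add (hP.cl_smul (hcl (τ k)) h3) (hS t')))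

end Pool.Agent.NTW.H92
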